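import Pool.Agent.Helper64.HG.Stmts

/-! Module DST of MP_866009_co: shortest path between two subsets of a connected set. -/

set_option autoImplicit false

namespace Pool.Agent.Helper64.HG

/-- a chain of length `m` in `K` from `P` to `Q` -/
def dst_C {V : Type} (G : SimpleGraph V) (K P Q : Set V) (f : ℕ → V) (m : ℕ) : Prop :=
  (∀ i ≤ m, f i ∈ K) ∧ (∀ i < m, G.Adj (f i) (f (i + 1))) ∧ f 0 ∈ P ∧ f m ∈ Q

theorem dst_exists {V : Type} (G : SimpleGraph V) (K P Q : Set V)
    (hK : (G.induce K).Preconnected) (hP : P ⊆ K) (hQ : Q ⊆ K) (hPn : P.Nonempty)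
    (hQn : Q.Nonempty) : ∃ m f, dst_C G K P Q f m := by
  obtain ⟨p, hp⟩ := hPn
  obtain ⟨q, hq⟩ := hQn
  obtain ⟨w⟩ := hK ⟨p, hP hp⟩ ⟨q, hQ hq⟩
  refine ⟨w.length, fun i => (w.getVert i : V), fun i _ => (w.getVert i).2, fun i hi => ?_, ?_, ?_⟩
  · exact w.adj_getVert_succ hi
  · simp only [SimpleGraph.Walk.getVert_zero]
    exact hp
  · simp only [SimpleGraph.Walk.getVert_length]
    exact hq

section
variable {V : Type} {G : SimpleGraph V} {K P Q : Set V} {f : ℕ → V} {m : ℕ}

theorem dst_1 (h : dst_C G K P Q f m) (hm : ∀ k g, dst_C G K P Q g k → m ≤ k) {i : ℕ}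
    (hi : 0 < i) (him : i ≤ m) : f i ∉ P := by
  intro hP
  have := hm (m - i) (fun j => f (j + i)) ⟨fun j hj => h.1 _ (by omega), fun j hj => ?_, ?_, ?_⟩
  · omega
  · have := h.2.1 (j + i) (by omega)
    have e : j + 1 + i = j + i + 1 := by omega
    simp only [e]
    exact this
  · simpa using hP
  · have e : m - i + i = m := by omega
    simp only [e]
    exact h.2.2.2

theorem dst_2 (h : dst_C G K P Q f m) (hm : ∀ k g, dst_C G K P Q g k → m ≤ k) {i : ℕ}
    (hi : i < m) : f i ∉ Q := by
  intro hQ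
  have := hm i f ⟨fun j hj => h.1 _ (by omega), fun j hj => h.2.1 _ (by omega), h.2.2.1, hQ⟩
  omega

theorem dst_3 (h : dst_C G K P Q f m) (hm : ∀ k g, dst_C G K P Q g k → m ≤ k) {i j : ℕ}
    (hi : i + 1 < j) (hj : j ≤ m) : ¬ G.Adj (f i) (f j) := by
  intro ha
  have := hm (m - (j - i - 1)) (fun k => if k ≤ i then f k else f (k + (j - i - 1)))
    ⟨fun k hk => ?_, fun k hk => ?_, ?_, ?_⟩
  · omega
  · simp only
    split
    · exact h.1 _ (by omega)
    · exact h.1 _ (by omega)
  · simp only
    by_cases h1 : k + 1 ≤ i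
    · rw [if_pos (by omega), if_pos h1]
      exact h.2.1 _ (by omega)
    · by_cases h2 : k ≤ i
      · have e : k = i := by omega
        rw [if_pos h2, if_neg h1]
        have e2 : k + 1 + (j - i - 1) = j := by omega
        rw [e2, e]
        exact ha
      · rw [if_neg h2, if_neg h1]
        have e2 : k + 1 + (j - i - 1) = k + (j - i - 1) + 1 := by omega
        rw [e2]
        exact h.2.1 _ (by omega)
  · simp only [Nat.zero_le, if_true]
    exact h.2.2.1
  · simp only
    rw [if_neg (by omega)]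
    have e : m - (j - i - 1) + (j - i - 1) = m := by omega
    rw [e]
    exact h.2.2.2

theorem dst_inj (h : dst_C G K P Q f m) (hm : ∀ k g, dst_C G K P Q g k → m ≤ k) {i j : ℕ}
    (hi : i < j) (hj : j ≤ m) : f i ≠ f j := by
  intro he
  rcases Nat.lt_or_ge j m with hjm | hjm
  · have := h.2.1 j hjm
    rw [← he] at this
    exact dst_3 h hm (by omega) (by omega) this
  · have e : j = m := by omega
    have := dst_2 h hm (i := i) (by omega)
    rw [he, e] at this
    exact this h.2.2.2

theorem dst_4 (h : dst_C G K P Q f m) (hm : ∀ k g, dst_C G K P Q g k → m ≤ k) (hP : P ⊆ K)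
    {i : ℕ} (hi : 2 ≤ i) (him : i ≤ m) (p : V) (hp : p ∈ P) : ¬ G.Adj (f i) p := by
  intro ha
  have := hm (m - (i - 1)) (fun k => if k = 0 then p else f (k + (i - 1)))
    ⟨fun k hk => ?_, fun k hk => ?_, ?_, ?_⟩
  · omega
  · simp only
    split
    · exact hP hp
    · exact h.1 _ (by omega)
  · simp only
    rw [if_neg (Nat.succ_ne_zero k)]
    by_cases h1 : k = 0
    · rw [if_pos h1, h1]
      have e : 0 + 1 + (i - 1) = i := by omega
      rw [e]
      exact ha.symm
    · rw [if_neg h1]
      have e : k + 1 + (i - 1) = k + (i - 1) + 1 := by omega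
      rw [e]
      exact h.2.1 _ (by omega)
  · simp only [if_true]
    exact hp
  · simp only
    rw [if_neg (by omega)]
    have e : m - (i - 1) + (i - 1) = m := by omega
    rw [e]
    exact h.2.2.2

theorem dst_5 (h : dst_C G K P Q f m) (hm : ∀ k g, dst_C G K P Q g k → m ≤ k) (hQ : Q ⊆ K)
    {i : ℕ} (hi : i + 2 ≤ m) (q : V) (hq : q ∈ Q) : ¬ G.Adj (f i) q := by
  intro ha
  have := hm (i + 1) (fun k => if k ≤ i then f k else q)
    ⟨fun k hk => ?_, fun k hk => ?_, ?_, ?_⟩
  · omega
  · simp only
    split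
    · exact h.1 _ (by omega)
    · exact hQ hq
  · simp only
    rw [if_pos (by omega)]
    by_cases h1 : k + 1 ≤ i
    · rw [if_pos h1]
      exact h.2.1 _ (by omega)
    · rw [if_neg h1]
      have e : k = i := by omega
      rw [e]
      exact ha
  · simp only [Nat.zero_le, if_true]
    exact h.2.2.1
  · simp only
    rw [if_neg (by omega)]
    exact hq

end

theorem st_DST : ST_DST := by
  classical
  intro V G K P Q hK hP hQ hPn hQn hPQ
  have hex := dst_exists G K P Q hK hP hQ hPn hQn
  obtain ⟨f, hf⟩ := Nat.find_spec hex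
  set m := Nat.find hex with hm
  have hmin : ∀ k g, dst_C G K P Q g k → m ≤ k := fun k g hg => Nat.find_min' hex ⟨g, hg⟩
  have hm2 : 2 ≤ m := by
    by_contra hc
    have h0 := hf.2.2.1
    have h1 := hf.2.2.2
    rcases Nat.lt_or_ge m 1 with h | h
    · have e : m = 0 := by omega
      rw [e] at h1
      exact (hPQ _ h0 _ h1).1 rfl
    · have e : m = 1 := by omega
      rw [e] at h1
      exact (hPQ _ h0 _ h1).2 (hf.2.1 0 (by omega))
  have hinj : ∀ i j, i ≤ m → j ≤ m → f i = f j → i = j := by
    intro i j hi hj he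
    rcases lt_trichotomy i j with h | h | h
    · exact absurd he (dst_inj hf hmin h hj)
    · exact h
    · exact absurd he.symm (dst_inj hf hmin h hi)
  set Y : List V := (List.range (m - 1)).map (fun i => f (i + 1)) with hY
  have hlen : Y.length = m - 1 := by simp [hY]
  have hget : ∀ (i : ℕ) (hi : i < Y.length), Y[i] = f (i + 1) := by
    intro i hi
    simp [hY]
  have hmem : ∀ y, y ∈ Y ↔ ∃ i, i < m - 1 ∧ f (i + 1) = y := by
    intro y
    simp [hY]
  have hhead : Y.head? = some (f 1) := by
    rw [List.head?_eq_getElem?, List.getElem?_eq_getElem (by omega), hget]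
  have hlast : Y.getLast? = some (f (m - 1)) := by
    rw [List.getLast?_eq_getElem?, List.getElem?_eq_getElem (by omega), hget]
    congr 2
    omega
  refine ⟨Y, ?_, ⟨?_, ?_⟩, ?_, ?_, ?_⟩
  · intro h
    rw [h] at hlen
    simp at hlen
    omega
  · rw [hY]
    refine List.Nodup.map_on ?_ List.nodup_range
    intro x hx y hy hxy
    rw [List.mem_range] at hx hy
    have := hinj _ _ (by omega) (by omega) hxy
    omega
  · intro i j hi hj hij
    rw [hget, hget]
    rw [hlen] at hi hj
    constructor
    · intro h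
      by_contra hc
      exact dst_3 hf hmin (by omega) (by omega) h
    · intro h
      subst h
      exact hf.2.1 _ (by omega)
  · intro y hy
    obtain ⟨i, hi, rfl⟩ := (hmem y).1 hy
    exact ⟨hf.1 _ (by omega), dst_1 hf hmin (by omega) (by omega), dst_2 hf hmin (by omega)⟩
  · intro y hy
    obtain ⟨i, hi, rfl⟩ := (hmem y).1 hy
    rw [hhead, Option.some.injEq]
    constructor
    · rintro ⟨p, hp, ha⟩
      by_cases h0 : i = 0
      · rw [h0]
      · exact absurd ha (dst_4 hf hmin hP (by omega) (by omega) p hp)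
    · intro h
      have := hinj _ _ (by omega) (by omega) h
      have e : i = 0 := by omega
      subst e
      exact ⟨f 0, hf.2.2.1, (hf.2.1 0 (by omega)).symm⟩
  · intro y hy
    obtain ⟨i, hi, rfl⟩ := (hmem y).1 hy
    rw [hlast, Option.some.injEq]
    constructor
    · rintro ⟨q, hq, ha⟩
      by_cases h0 : i + 1 = m - 1
      · rw [h0]
      · exact absurd ha (dst_5 hf hmin hQ (by omega) q hq)
    · intro h
      have := hinj _ _ (by omega) (by omega) h
      refine ⟨f m, hf.2.2.2, ?_⟩
      have h2 := hf.2.1 (i + 1) (by omega)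
      have e : i + 1 + 1 = m := by omega
      rw [e] at h2
      exact h2

end Pool.Agent.Helper64.HG
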