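import Pool.Agent.Helper64.HG.Stmts

/-! Module EAR of MP_866009_co. -/

set_option autoImplicit false

namespace Pool.Agent.Helper64.HG

theorem ear_one (h2 : ST_CY2) {V : Type} {G : SimpleGraph V} {s t : V} {P R E : List V}
    (hO : OneP G) (hst : s ≠ t) (hadj : ¬ G.Adj s t) (hP : Link G s P t) (hR : Link G s R t)
    (hE : Link G s E t) (hRE : Anti G E R) (hPR : Anti G P R) (hPE : Anti G P E) :
    2 ≤ P.length := by
  by_contra hc
  obtain ⟨hne, hip, hs, ht, hsP, htP⟩ := hP
  match P, hne, hip, hs, ht, hsP, htP, hPR, hPE, hc with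
  | [m], _, _, hs, ht, hsP, htP, hPR, hPE, _ =>
    have hic := h2 V G s t E R hE hR hRE hst hadj
    have hms : G.Adj s m := (hsP m (by simp)).2 (by simp)
    have hmt : G.Adj t m := (htP m (by simp)).2 (by simp)
    have hm : m ∉ s :: (E ++ t :: R.reverse) := by
      intro hm
      simp only [List.mem_cons, List.mem_append, List.mem_reverse] at hm
      rcases hm with hm | hm | hm | hm
      · exact hs (by simp [hm])
      · exact (hPE m (by simp) m hm).1 rfl
      · exact ht (by simp [hm])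
      · exact (hPR m (by simp) m hm).1 rfl
    exact hst (hO _ hic m hm s (by simp) t (by simp) hms.symm hmt.symm)
  | m :: m' :: P', _, _, _, _, _, _, _, _, hc =>
    exact hc (by simp)

theorem ear_anti_symm {V : Type} {G : SimpleGraph V} {A B : List V} (h : Anti G A B) :
    Anti G B A := fun b hb a ha => ⟨(h a ha b hb).1.symm, fun hh => (h a ha b hb).2 hh.symm⟩

theorem st_EAR (h1 : ST_SP2) (h2 : ST_CY2) : ST_EAR := by
  intro V G L E s t hG hT hO hL hs ht hst hE hEL hEz
  by_contra hadj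
  obtain ⟨A, B, hA, hB, hAB, hmem⟩ := h1 V G L s t hL hs ht hst hadj
  have hAE : Anti G A E := by
    intro a ha e he
    have haL : a ∈ L := (hmem a).2 (Or.inr (Or.inr (Or.inl ha)))
    refine ⟨fun h => hEL e he (h ▸ haL), fun h => ?_⟩
    refine hEz e he a haL ?_ ?_ h.symm
    · rintro rfl
      exact hA.2.2.1 ha
    · rintro rfl
      exact hA.2.2.2.1 ha
  have hBE : Anti G B E := by
    intro a ha e he
    have haL : a ∈ L := (hmem a).2 (Or.inr (Or.inr (Or.inr ha)))
    refine ⟨fun h => hEL e he (h ▸ haL), fun h => ?_⟩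
    refine hEz e he a haL ?_ ?_ h.symm
    · rintro rfl
      exact hB.2.2.1 ha
    · rintro rfl
      exact hB.2.2.2.1 ha
  have hA2 := ear_one h2 hO hst hadj hA hB hE (ear_anti_symm hBE) hAB hAE
  have hB2 := ear_one h2 hO hst hadj hB hA hE (ear_anti_symm hAE) (ear_anti_symm hAB) hBE
  have hE2 := ear_one h2 hO hst hadj hE hA hB (ear_anti_symm hAB) (ear_anti_symm hAE)
    (ear_anti_symm hBE)
  exact hT ⟨s, t, A, B, E, ⟨hst, hadj, hA, hB, hE, hAB, hAE, hBE, hA2, hB2, hE2⟩⟩

end Pool.Agent.Helper64.HG
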