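import Pool.Agent.Helper64.HG.Stmts

/-! Module GEO of MP_866009_co: chord models of triangle-free graphs and interval overlap models. -/

set_option autoImplicit false

namespace Pool.Agent.Helper64.HG

/-- cross product of `q - p` and `z - p` -/
def geo_D (p q z : ℂ) : ℝ := (q.re - p.re) * (z.im - p.im) - (q.im - p.im) * (z.re - p.re)

theorem geo_D_lin (p q x y : ℂ) (m : ℝ) :
    geo_D p q (x + m • (y - x)) = (1 - m) * geo_D p q x + m * geo_D p q y := by
  simp [geo_D]
  ring

theorem geo_D_left (p q : ℂ) : geo_D p q p = 0 := by simp [geo_D]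

theorem geo_D_right (p q : ℂ) : geo_D p q q = 0 := by simp [geo_D]; ring

theorem geo_sep (p q x y : ℂ) (h : (0 < geo_D p q x ∧ 0 < geo_D p q y) ∨
    (geo_D p q x < 0 ∧ geo_D p q y < 0)) :
    ¬ (segment ℝ p q ∩ segment ℝ x y).Nonempty := by
  rintro ⟨z, hz1, hz2⟩
  rw [segment_eq_image'] at hz1 hz2
  obtain ⟨m, ⟨hm0, hm1⟩, rfl⟩ := hz1
  obtain ⟨k, ⟨hk0, hk1⟩, hk⟩ := hz2
  have h1 : geo_D p q (p + m • (q - p)) = 0 := by
    rw [geo_D_lin, geo_D_left, geo_D_right]; ring
  have hk' : x + k • (y - x) = p + m • (q - p) := hk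
  rw [← hk', geo_D_lin] at h1
  rcases h with ⟨hx, hy⟩ | ⟨hx, hy⟩
  · rcases eq_or_lt_of_le hk0 with h0 | h0
    · rw [← h0] at h1; linarith
    · have := mul_pos h0 hy
      have := mul_nonneg (sub_nonneg.2 hk1) hx.le
      linarith
  · rcases eq_or_lt_of_le hk0 with h0 | h0
    · rw [← h0] at h1; linarith
    · have := mul_neg_of_pos_of_neg h0 hy
      have := mul_nonpos_of_nonneg_of_nonpos (sub_nonneg.2 hk1) hx.le
      linarith

theorem geo_line (x y z : ℂ) (hne : x ≠ y) (hD : geo_D x y z = 0) :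
    ∃ m : ℝ, z = x + m • (y - x) := by
  unfold geo_D at hD
  have hpos : (y.re - x.re) ^ 2 + (y.im - x.im) ^ 2 ≠ 0 := by
    intro h
    have h1 : y.re - x.re = 0 := by nlinarith [sq_nonneg (y.re - x.re), sq_nonneg (y.im - x.im)]
    have h2 : y.im - x.im = 0 := by nlinarith [sq_nonneg (y.re - x.re), sq_nonneg (y.im - x.im)]
    exact hne (Complex.ext (by linarith) (by linarith))
  refine ⟨((z.re - x.re) * (y.re - x.re) + (z.im - x.im) * (y.im - x.im)) /
    ((y.re - x.re) ^ 2 + (y.im - x.im) ^ 2), ?_⟩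
  apply Complex.ext
  · simp only [Complex.add_re, Complex.smul_re, Complex.sub_re, smul_eq_mul]
    rw [div_mul_eq_mul_div, eq_comm, ← eq_sub_iff_add_eq', div_eq_iff hpos]
    linear_combination (y.im - x.im) * hD
  · simp only [Complex.add_im, Complex.smul_im, Complex.sub_im, smul_eq_mul]
    rw [div_mul_eq_mul_div, eq_comm, ← eq_sub_iff_add_eq', div_eq_iff hpos]
    linear_combination (-(y.re - x.re)) * hD

theorem geo_inter (p q x y : ℂ)
    (h1 : (geo_D p q x < 0 ∧ 0 < geo_D p q y) ∨ (0 < geo_D p q x ∧ geo_D p q y < 0))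
    (h2 : (geo_D x y p < 0 ∧ 0 < geo_D x y q) ∨ (0 < geo_D x y p ∧ geo_D x y q < 0)) :
    (segment ℝ p q ∩ segment ℝ x y).Nonempty := by
  have hxy : x ≠ y := by
    rintro rfl
    rcases h1 with h1 | h1 <;> linarith [h1.1, h1.2]
  have hd : geo_D x y p - geo_D x y q ≠ 0 := by
    rcases h2 with h2 | h2
    · have : geo_D x y p - geo_D x y q < 0 := by linarith [h2.1, h2.2]
      exact this.ne
    · have : 0 < geo_D x y p - geo_D x y q := by linarith [h2.1, h2.2]
      exact this.ne'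
  set k : ℝ := geo_D x y p / (geo_D x y p - geo_D x y q) with hk
  have hk0 : 0 ≤ k := by
    rcases h2 with h2 | h2
    · exact div_nonneg_of_nonpos h2.1.le (by linarith [h2.1, h2.2])
    · exact div_nonneg h2.1.le (by linarith [h2.1, h2.2])
  have hk1 : k ≤ 1 := by
    rcases h2 with h2 | h2
    · rw [hk, div_le_one_of_neg (by linarith [h2.1, h2.2])]
      linarith [h2.2]
    · rw [hk, div_le_one (by linarith [h2.1, h2.2])]
      linarith [h2.2]
  have hz : geo_D x y (p + k • (q - p)) = 0 := by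
    rw [geo_D_lin, hk]
    field_simp
    ring
  obtain ⟨m, hm⟩ := geo_line x y _ hxy hz
  have hz2 : geo_D p q (p + k • (q - p)) = 0 := by
    rw [geo_D_lin, geo_D_left, geo_D_right]; ring
  rw [hm, geo_D_lin] at hz2
  have hm01 : 0 ≤ m ∧ m ≤ 1 := by
    rcases h1 with h1 | h1
    · constructor
      · by_contra hc
        push Not at hc
        nlinarith [h1.1, h1.2]
      · by_contra hc
        push Not at hc
        nlinarith [h1.1, h1.2]
    · constructor
      · by_contra hc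
        push Not at hc
        nlinarith [h1.1, h1.2]
      · by_contra hc
        push Not at hc
        nlinarith [h1.1, h1.2]
  refine ⟨p + k • (q - p), ?_, ?_⟩
  · rw [segment_eq_image']
    exact ⟨k, ⟨hk0, hk1⟩, rfl⟩
  · rw [segment_eq_image']
    exact ⟨m, hm01, hm.symm⟩

/-- the point of the unit circle with angle `t` -/
noncomputable def geo_e (t : ℝ) : ℂ := Complex.exp (t * Complex.I)

theorem geo_e_re (t : ℝ) : (geo_e t).re = Real.cos t := Complex.exp_ofReal_mul_I_re t

theorem geo_e_im (t : ℝ) : (geo_e t).im = Real.sin t := Complex.exp_ofReal_mul_I_im t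

theorem geo_D_exp (s1 s2 t : ℝ) : geo_D (geo_e s1) (geo_e s2) (geo_e t) =
    4 * Real.sin ((s2 - s1) / 2) * Real.sin ((t - s1) / 2) * Real.sin ((t - s2) / 2) := by
  unfold geo_D
  rw [geo_e_re, geo_e_re, geo_e_re, geo_e_im, geo_e_im, geo_e_im, Real.cos_sub_cos,
    Real.sin_sub_sin, Real.sin_sub_sin, Real.cos_sub_cos]
  have : Real.sin ((t - s2) / 2) = Real.sin ((t + s1) / 2) * Real.cos ((s2 + s1) / 2) -
      Real.cos ((t + s1) / 2) * Real.sin ((s2 + s1) / 2) := by
    rw [← Real.sin_sub]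
    congr 1
    ring
  rw [this]
  ring

theorem geo_sin_pos {a b : ℝ} (ha : -Real.pi < a) (hb : b ≤ Real.pi) (h : a < b) :
    0 < Real.sin ((b - a) / 2) :=
  Real.sin_pos_of_pos_of_lt_pi (by linarith) (by linarith)

theorem geo_sin_neg {a b : ℝ} (ha : -Real.pi < a) (hb : b ≤ Real.pi) (h : a < b) :
    Real.sin ((a - b) / 2) < 0 :=
  Real.sin_neg_of_neg_of_neg_pi_lt (by linarith) (by linarith)

theorem geo_D_in {s1 s2 t : ℝ} (h1 : -Real.pi < s1) (h2 : s2 ≤ Real.pi) (ht1 : s1 < t)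
    (ht2 : t < s2) : geo_D (geo_e s1) (geo_e s2) (geo_e t) < 0 := by
  rw [geo_D_exp]
  have a := geo_sin_pos h1 h2 (ht1.trans ht2)
  have b := geo_sin_pos h1 (ht2.le.trans h2) ht1
  have c := geo_sin_neg (h1.trans ht1) h2 ht2
  exact mul_neg_of_pos_of_neg (by positivity) c

theorem geo_D_lo {s1 s2 t : ℝ} (h1 : -Real.pi < t) (h2 : s2 ≤ Real.pi) (ht1 : t < s1)
    (ht2 : s1 < s2) : 0 < geo_D (geo_e s1) (geo_e s2) (geo_e t) := by
  rw [geo_D_exp]
  have a := geo_sin_pos (h1.trans ht1) h2 ht2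
  have b := geo_sin_neg h1 (ht2.le.trans h2) ht1
  have c := geo_sin_neg h1 h2 (ht1.trans ht2)
  exact mul_pos_of_neg_of_neg (mul_neg_of_pos_of_neg (by positivity) b) c

theorem geo_D_hi {s1 s2 t : ℝ} (h1 : -Real.pi < s1) (h2 : t ≤ Real.pi) (ht1 : s2 < t)
    (ht2 : s1 < s2) : 0 < geo_D (geo_e s1) (geo_e s2) (geo_e t) := by
  rw [geo_D_exp]
  have a := geo_sin_pos h1 (ht1.le.trans h2) ht2
  have b := geo_sin_pos h1 h2 (ht2.trans ht1)
  have c := geo_sin_pos (h1.trans ht2) h2 ht1
  positivity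

/-- chords intersect exactly when the angle intervals overlap -/
theorem geo_key {s1 s2 t1 t2 : ℝ} (hs1 : -Real.pi < s1) (hs2 : s2 ≤ Real.pi) (hs : s1 < s2)
    (ht1 : -Real.pi < t1) (ht2 : t2 ≤ Real.pi) (ht : t1 < t2) (n11 : s1 ≠ t1) (n12 : s1 ≠ t2)
    (n21 : s2 ≠ t1) (n22 : s2 ≠ t2) :
    (segment ℝ (geo_e s1) (geo_e s2) ∩ segment ℝ (geo_e t1) (geo_e t2)).Nonempty ↔
      ((s1 < t1 ∧ t1 < s2 ∧ s2 < t2) ∨ (t1 < s1 ∧ s1 < t2 ∧ t2 < s2)) := by
  constructor
  · intro h
    by_contra hc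
    revert h
    apply geo_sep
    rcases lt_or_gt_of_ne n11 with h11 | h11
    · rcases lt_or_gt_of_ne n21 with h21 | h21
      · left
        exact ⟨geo_D_hi hs1 (ht.le.trans ht2) h21 hs, geo_D_hi hs1 ht2 (h21.trans ht) hs⟩
      · rcases lt_or_gt_of_ne n22 with h22 | h22
        · exact absurd (Or.inl ⟨h11, h21, h22⟩) hc
        · right
          exact ⟨geo_D_in hs1 hs2 h11 h21, geo_D_in hs1 hs2 (h11.trans ht) h22⟩
    · rcases lt_or_gt_of_ne n12 with h12 | h12
      · rcases lt_or_gt_of_ne n22 with h22 | h22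
        · left
          exact ⟨geo_D_lo ht1 hs2 h11 hs, geo_D_hi hs1 ht2 h22 hs⟩
        · exact absurd (Or.inr ⟨h11, h12, h22⟩) hc
      · left
        exact ⟨geo_D_lo ht1 hs2 h11 hs, geo_D_lo (ht1.trans ht) hs2 h12 hs⟩
  · rintro (⟨h1, h2, h3⟩ | ⟨h1, h2, h3⟩)
    · apply geo_inter
      · left
        exact ⟨geo_D_in hs1 hs2 h1 h2, geo_D_hi hs1 ht2 h3 hs⟩
      · right
        exact ⟨geo_D_lo hs1 ht2 h1 ht, geo_D_in ht1 ht2 h2 h3⟩
    · apply geo_inter
      · right
        exact ⟨geo_D_lo ht1 hs2 h1 hs, geo_D_in hs1 hs2 h2 h3⟩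
      · left
        exact ⟨geo_D_in ht1 ht2 h1 h2, geo_D_hi ht1 hs2 h3 ht⟩

theorem geo_e_inj {s t : ℝ} (hs1 : -Real.pi < s) (hs2 : s ≤ Real.pi) (ht1 : -Real.pi < t)
    (ht2 : t ≤ Real.pi) (h : geo_e s = geo_e t) : s = t := by
  have h1 : Complex.arg (geo_e s) = s := by
    unfold geo_e
    rw [Complex.arg_exp_mul_I, toIocMod_eq_self]
    constructor <;> linarith
  have h2 : Complex.arg (geo_e t) = t := by
    unfold geo_e
    rw [Complex.arg_exp_mul_I, toIocMod_eq_self]
    constructor <;> linarith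
  rw [← h1, h, h2]

theorem geo_e_arg {z : ℂ} (h : ‖z‖ = 1) : geo_e (Complex.arg z) = z := by
  unfold geo_e
  have := Complex.norm_mul_exp_arg_mul_I z
  rw [h] at this
  simpa using this

theorem geo_arg_inj {z w : ℂ} (hz : ‖z‖ = 1) (hw : ‖w‖ = 1)
    (h : Complex.arg z = Complex.arg w) : z = w := by
  rw [← geo_e_arg hz, ← geo_e_arg hw, h]

theorem geo_norm_e (t : ℝ) : ‖geo_e t‖ = 1 := Complex.norm_exp_ofReal_mul_I t

/-- Helly is automatic for triangle-free graphs -/
theorem geo_helly {V : Type} {G : SimpleGraph V}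
    (hG : ∀ a b c : V, G.Adj a b → G.Adj b c → ¬ G.Adj a c) (M : ChordModel G) : M.Helly := by
  classical
  intro S hS
  by_cases h0 : ∃ u, u ∈ S
  · obtain ⟨u, hu⟩ := h0
    by_cases h1 : ∃ v, v ∈ S ∧ u ≠ v
    · obtain ⟨v, hv, huv⟩ := h1
      obtain ⟨z, hz⟩ := hS u hu v hv
      refine ⟨z, ?_⟩
      simp only [Set.mem_iInter]
      intro w hw
      by_cases hwu : w = u
      · rw [hwu]; exact hz.1
      by_cases hwv : w = v
      · rw [hwv]; exact hz.2
      exfalso
      exact hG u v w ((M.adj u v huv).2 (hS u hu v hv))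
        ((M.adj v w (Ne.symm hwv)).2 (hS v hv w hw))
        ((M.adj u w (Ne.symm hwu)).2 (hS u hu w hw))
    · push Not at h1
      refine ⟨M.a u, ?_⟩
      simp only [Set.mem_iInter]
      intro w hw
      rw [← h1 w hw]
      exact left_mem_segment ℝ _ _
  · push Not at h0
    refine ⟨0, ?_⟩
    simp only [Set.mem_iInter]
    intro w hw
    exact absurd hw (h0 w)

theorem geo_circ_of_helly {V : Type} {G : SimpleGraph V} (M : ChordModel G) : Circ G := by
  classical
  set s : V → ℝ := fun v => Complex.arg (M.a v) with hs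
  set t : V → ℝ := fun v => Complex.arg (M.b v) with ht
  have hsl : ∀ v, -Real.pi < s v := fun v => Complex.neg_pi_lt_arg _
  have hsu : ∀ v, s v ≤ Real.pi := fun v => Complex.arg_le_pi _
  have htl : ∀ v, -Real.pi < t v := fun v => Complex.neg_pi_lt_arg _
  have htu : ∀ v, t v ≤ Real.pi := fun v => Complex.arg_le_pi _
  have hst : ∀ u v, s u ≠ t v := by
    intro u v h
    have := geo_arg_inj (M.norm_a u) (M.norm_b v) h
    have h2 := M.distinct (a₁ := Sum.inl u) (a₂ := Sum.inr v) (by simpa using this)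
    exact absurd h2 (by simp)
  have hss : ∀ u v, s u = s v → u = v := by
    intro u v h
    have := geo_arg_inj (M.norm_a u) (M.norm_a v) h
    have h2 := M.distinct (a₁ := Sum.inl u) (a₂ := Sum.inl v) (by simpa using this)
    exact Sum.inl_injective h2
  have htt : ∀ u v, t u = t v → u = v := by
    intro u v h
    have := geo_arg_inj (M.norm_b u) (M.norm_b v) h
    have h2 := M.distinct (a₁ := Sum.inr u) (a₂ := Sum.inr v) (by simpa using this)
    exact Sum.inr_injective h2
  have hcase : ∀ v, (s v < t v ∧ min (s v) (t v) = s v ∧ max (s v) (t v) = t v) ∨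
      (t v < s v ∧ min (s v) (t v) = t v ∧ max (s v) (t v) = s v) := by
    intro v
    rcases lt_or_gt_of_ne (hst v v) with h | h
    · exact Or.inl ⟨h, min_eq_left h.le, max_eq_right h.le⟩
    · exact Or.inr ⟨h, min_eq_right h.le, max_eq_left h.le⟩
  have hseg : ∀ v, segment ℝ (M.a v) (M.b v) =
      segment ℝ (geo_e (min (s v) (t v))) (geo_e (max (s v) (t v))) := by
    intro v
    rcases hcase v with ⟨_, h1, h2⟩ | ⟨_, h1, h2⟩
    · rw [h1, h2, hs, ht]
      simp only
      rw [geo_e_arg (M.norm_a v), geo_e_arg (M.norm_b v)]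
    · rw [h1, h2, hs, ht]
      simp only
      rw [geo_e_arg (M.norm_a v), geo_e_arg (M.norm_b v), segment_symm]
  have hlt : ∀ v, min (s v) (t v) < max (s v) (t v) := by
    intro v
    rcases hcase v with ⟨h, h1, h2⟩ | ⟨h, h1, h2⟩ <;> rw [h1, h2] <;> exact h
  have hne : ∀ u v, min (s u) (t u) ≠ max (s v) (t v) := by
    intro u v h
    rcases hcase u with ⟨h0, h1, h2⟩ | ⟨h0, h1, h2⟩ <;>
      rcases hcase v with ⟨h0', h1', h2'⟩ | ⟨h0', h1', h2'⟩ <;> rw [h1, h2'] at h
    · exact hst _ _ h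
    · have := hss _ _ h
      subst this
      exact absurd h0 (not_lt.2 h0'.le)
    · have := htt _ _ h
      subst this
      exact absurd h0 (not_lt.2 h0'.le)
    · exact hst _ _ h.symm
  have hinjl : Function.Injective (fun v => min (s v) (t v)) := by
    intro u v h
    simp only at h
    rcases hcase u with ⟨h0, h1, h2⟩ | ⟨h0, h1, h2⟩ <;>
      rcases hcase v with ⟨h0', h1', h2'⟩ | ⟨h0', h1', h2'⟩ <;> rw [h1, h1'] at h
    · exact hss _ _ h
    · exact absurd h (hst _ _)
    · exact absurd h.symm (hst _ _)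
    · exact htt _ _ h
  have hinjr : Function.Injective (fun v => max (s v) (t v)) := by
    intro u v h
    simp only at h
    rcases hcase u with ⟨h0, h1, h2⟩ | ⟨h0, h1, h2⟩ <;>
      rcases hcase v with ⟨h0', h1', h2'⟩ | ⟨h0', h1', h2'⟩ <;> rw [h2, h2'] at h
    · exact htt _ _ h
    · exact absurd h.symm (hst _ _)
    · exact absurd h (hst _ _)
    · exact hss _ _ h
  refine ⟨fun v => min (s v) (t v), fun v => max (s v) (t v), hlt, hinjl, hinjr, hne, ?_⟩
  intro u v
  by_cases huv : u = v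
  · subst huv
    constructor
    · intro h
      exact absurd h (SimpleGraph.irrefl G)
    · rintro (⟨h, _⟩ | ⟨h, _⟩)
      · exact absurd h (lt_irrefl _)
      · exact absurd h (lt_irrefl _)
  · rw [M.adj u v huv, hseg u, hseg v]
    have hl : ∀ w, -Real.pi < min (s w) (t w) := fun w => lt_min (hsl w) (htl w)
    have hr : ∀ w, max (s w) (t w) ≤ Real.pi := fun w => max_le (hsu w) (htu w)
    exact geo_key (hl u) (hr u) (hlt u) (hl v) (hr v) (hlt v) (fun h => huv (hinjl h)) (hne u v)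
      (fun h => hne v u h.symm) (fun h => huv (hinjr h))

theorem geo_model_of_circ {V : Type} {G : SimpleGraph V} (h : Circ G) :
    Nonempty (ChordModel G) := by
  obtain ⟨l, r, hM⟩ := h
  have hA : ∀ x : ℝ, -Real.pi < Real.arctan x ∧ Real.arctan x ≤ Real.pi := by
    intro x
    have h1 := Real.neg_pi_div_two_lt_arctan x
    have h2 := Real.arctan_lt_pi_div_two x
    have h3 := Real.pi_pos
    constructor <;> linarith
  have hinj : ∀ x y : ℝ, geo_e (Real.arctan x) = geo_e (Real.arctan y) → x = y := fun x y hxy =>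
    Real.arctan_injective (geo_e_inj (hA x).1 (hA x).2 (hA y).1 (hA y).2 hxy)
  refine ⟨⟨fun v => geo_e (Real.arctan (l v)), fun v => geo_e (Real.arctan (r v)),
    fun v => geo_norm_e _, fun v => geo_norm_e _, ?_, ?_⟩⟩
  · rintro (u | u) (v | v) huv
    · simp only [Sum.elim_inl] at huv
      rw [hM.injl (hinj _ _ huv)]
    · simp only [Sum.elim_inl, Sum.elim_inr] at huv
      exact absurd (hinj _ _ huv) (hM.ne u v)
    · simp only [Sum.elim_inl, Sum.elim_inr] at huv
      exact absurd (hinj _ _ huv).symm (hM.ne v u)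
    · simp only [Sum.elim_inr] at huv
      rw [hM.injr (hinj _ _ huv)]
  · intro u v huv
    rw [hM.adj u v]
    have hm := Real.arctan_strictMono
    have hi := Real.arctan_injective
    rw [geo_key (hA _).1 (hA _).2 (hm (hM.lt u)) (hA _).1 (hA _).2 (hm (hM.lt v))
      (fun h => huv (hM.injl (hi h))) (fun h => hM.ne u v (hi h))
      (fun h => hM.ne v u (hi h).symm) (fun h => huv (hM.injr (hi h)))]
    simp only [Ovl, hm.lt_iff_lt]

theorem st_GEO : ST_GEO := by
  intro V G hG
  constructor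
  · rintro ⟨M, _⟩
    exact geo_circ_of_helly M
  · intro h
    obtain ⟨M⟩ := geo_model_of_circ h
    exact ⟨M, geo_helly hG M⟩

end Pool.Agent.Helper64.HG
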