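import Pool.Agent.Helper64.HG.Stmts

/-! Module LC of MP_866009_co. -/

set_option autoImplicit false

namespace Pool.Agent.Helper64.HG

theorem lc_cast {m : ℕ} (hm : 3 ≤ m) (k : ℕ) (hk : 0 < k) (hk2 : k < 3) :
    (k : ZMod m) ≠ 0 := by
  intro h
  rw [ZMod.natCast_eq_zero_iff] at h
  have := Nat.le_of_dvd hk h
  omega

theorem st_LC (h1 : ST_BTW) : ST_LC := by
  intro V _ G v m z A hG hC hm hz hv hA
  haveI : NeZero m := ⟨by omega⟩
  have e1 : (1 : ZMod m) ≠ 0 := by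
    have := lc_cast hm 1 (by omega) (by omega)
    simpa using this
  have e2 : (2 : ZMod m) ≠ 0 := by
    have := lc_cast hm 2 (by omega) (by omega)
    simpa using this
  obtain ⟨p, hp, hb⟩ := h1 V G v hG hC
  obtain ⟨i, hi⟩ := Finite.exists_min (fun i : ZMod m => p (z i))
  have a1 : i - 1 ≠ i := by
    intro h
    exact e1 (by linear_combination -h)
  have a2 : i + 1 ≠ i := by
    intro h
    exact e1 (by linear_combination h)
  have a3 : i + 1 ≠ i - 1 := by
    intro h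
    exact e2 (by linear_combination h)
  have a4 : i - 1 + 1 = i := by ring
  have hlt : ∀ j, j ≠ i → p (z i) < p (z j) := by
    intro j hj
    refine lt_of_le_of_ne (hi j) (fun h => hj ?_)
    exact (hz (hp _ _ (hv i) (hv j) h)).symm
  have hne : p (z (i + 1)) ≠ p (z (i - 1)) := fun h => a3 (hz (hp _ _ (hv _) (hv _) h))
  rcases lt_or_gt_of_ne hne with h | h
  · obtain ⟨c1, c2, c3, c4, c5⟩ := hA (i - 1)
    rw [a4] at c4 c5
    exact hb (z (i - 1)) (z i) (z (i + 1)) (A (i - 1)) (hv _) (hv _) (hv _)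
      (fun h => a3 (hz h)) (fun h => a2 (hz h)) c1 c2 c3 c4 (c5 _ a3 a2)
      (Or.inr ⟨hlt _ a2, h⟩)
  · obtain ⟨c1, c2, c3, c4, c5⟩ := hA i
    exact hb (z i) (z (i + 1)) (z (i - 1)) (A i) (hv _) (hv _) (hv _)
      (fun h => a1 (hz h)) (fun h => a3 (hz h).symm) c1 c2 c3 c4 (c5 _ a1 (Ne.symm a3))
      (Or.inl ⟨hlt _ a1, h⟩)

end Pool.Agent.Helper64.HG
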