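import Pool.Agent.Helper64.HG.Stmts

/-! Module MW of MP_866009_co: deleting a vertex of a wheel. -/

set_option autoImplicit false

namespace Pool.Agent.Helper64.HG

/-- the list `M` in the subtype `S` -/
def mw_sub {V : Type} (S : Set V) (M : List V) (hM : ∀ y ∈ M, y ∈ S) : List S :=
  M.pmap (fun y hy => ⟨y, hy⟩) hM

theorem mw_sub_length {V : Type} (S : Set V) (M : List V) (hM : ∀ y ∈ M, y ∈ S) :
    (mw_sub S M hM).length = M.length := by simp [mw_sub]

theorem mw_sub_get {V : Type} (S : Set V) (M : List V) (hM : ∀ y ∈ M, y ∈ S) (i : ℕ)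
    (h : i < (mw_sub S M hM).length) :
    ((mw_sub S M hM)[i] : V) = M[i]'(by rw [mw_sub_length] at h; exact h) := by
  simp [mw_sub]

theorem mw_sub_nodup {V : Type} (S : Set V) (M : List V) (hM : ∀ y ∈ M, y ∈ S)
    (h : M.Nodup) : (mw_sub S M hM).Nodup := by
  unfold mw_sub
  refine List.Nodup.pmap ?_ h
  intro a ha b hb hab
  simpa using hab

theorem mw_sub_mem {V : Type} (S : Set V) (M : List V) (hM : ∀ y ∈ M, y ∈ S) (x : S) :
    x ∈ mw_sub S M hM ↔ (x : V) ∈ M := by
  unfold mw_sub
  rw [List.mem_pmap]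
  constructor
  · rintro ⟨a, ha, rfl⟩
    exact ha
  · intro h
    exact ⟨x, h, rfl⟩

theorem mw_IP_sub {V : Type} {G : SimpleGraph V} (S : Set V) (M : List V)
    (hM : ∀ y ∈ M, y ∈ S) (h : IP G M) : IP (G.induce S) (mw_sub S M hM) := by
  refine ⟨mw_sub_nodup S M hM h.1, ?_⟩
  intro i j hi hj hij
  rw [SimpleGraph.induce_adj, mw_sub_get, mw_sub_get]
  rw [mw_sub_length] at hi hj
  exact h.2 i j hi hj hij

theorem mw_IC_sub {V : Type} {G : SimpleGraph V} (S : Set V) (M : List V)
    (hM : ∀ y ∈ M, y ∈ S) (h : IC G M) : IC (G.induce S) (mw_sub S M hM) := by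
  refine ⟨by rw [mw_sub_length]; exact h.1, mw_sub_nodup S M hM h.2.1, ?_⟩
  intro i j hi hj hij
  have hi' := hi
  have hj' := hj
  rw [mw_sub_length] at hi' hj'
  rw [SimpleGraph.induce_adj, mw_sub_get, mw_sub_get, h.2.2 i j hi' hj' hij, mw_sub_length]

theorem mw_girth {V : Type} {G : SimpleGraph V} (S : Set V) (h : Girth5 G) :
    Girth5 (G.induce S) := by
  refine ⟨fun a b c hab hbc hac => h.1 a b c hab hbc hac, fun a b c d hac hbd hab hbc hcd hda =>
    h.2 a b c d (fun he => hac (Subtype.ext he)) (fun he => hbd (Subtype.ext he)) hab hbc hcd hda⟩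

theorem mw_cut {V : Type} {G : SimpleGraph V} (x : V) (A B : List V)
    (h : IC G (A ++ x :: B)) : IP G (B ++ A) := by
  obtain ⟨_, hn, ha⟩ := h
  have hlen : (A ++ x :: B).length = A.length + B.length + 1 := by simp; omega
  have hA : ∀ (i : ℕ) (hi : i < A.length), (A ++ x :: B)[i]'(by omega) = A[i] := by
    intro i hi
    rw [List.getElem_append_left hi]
  have hB : ∀ (i : ℕ) (hi : i < B.length),
      (A ++ x :: B)[A.length + 1 + i]'(by omega) = B[i] := by
    intro i hi
    rw [List.getElem_append_right (by omega)]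
    have e : A.length + 1 + i - A.length = i + 1 := by omega
    simp only [e, List.getElem_cons_succ]
  have hn1 : (B ++ A).Nodup := by
    have h1 : (A ++ x :: B).Perm (x :: (A ++ B)) := List.perm_middle
    have h2 := h1.nodup_iff.1 hn
    have h3 := (List.nodup_cons.1 h2).2
    exact (List.perm_append_comm.nodup_iff).1 h3
  refine ⟨hn1, ?_⟩
  intro i j hi hj hij
  rw [List.length_append] at hi hj
  by_cases hjB : j < B.length
  · rw [List.getElem_append_left (by omega), List.getElem_append_left hjB,
      ← hB i (by omega), ← hB j hjB, ha _ _ _ _ (by omega)]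
    omega
  · by_cases hiB : i < B.length
    · rw [List.getElem_append_left hiB, List.getElem_append_right (by omega),
        ← hB i hiB, ← hA (j - B.length) (by omega), SimpleGraph.adj_comm,
        ha _ _ _ _ (by omega)]
      omega
    · rw [List.getElem_append_right (by omega), List.getElem_append_right (by omega),
        ← hA (i - B.length) (by omega), ← hA (j - B.length) (by omega),
        ha _ _ _ _ (by omega)]
      omega

theorem st_MW (h1 : ST_FAN) (h2 : ST_CYC) : ST_MW := by
  intro V _ G hG hW x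
  obtain ⟨h, L, a, b, c, hS, hall⟩ := hW
  by_cases hx : x = h
  · subst hx
    have hM : ∀ y ∈ L, y ∈ ({x}ᶜ : Set V) := by
      intro y hy he
      rw [Set.mem_singleton_iff] at he
      subst he
      exact hS.hL hy
    refine h2 _ (G.induce {x}ᶜ) (mw_sub {x}ᶜ L hM) (mw_IC_sub _ L hM hS.ic) ?_
    intro y
    rw [mw_sub_mem]
    rcases hall y with hy | hy
    · exact absurd hy y.2
    · exact hy
  · have hxL : x ∈ L := (hall x).resolve_left hx
    obtain ⟨A, B, hAB⟩ := List.append_of_mem hxL
    have hic := hS.ic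
    rw [hAB] at hic
    have hip := mw_cut x A B hic
    have hnd := hic.2.1
    have h4 : (A ++ x :: B).Perm (x :: (A ++ B)) := List.perm_middle
    have h5 := (List.nodup_cons.1 (h4.nodup_iff.1 hnd)).1
    have hM : ∀ y ∈ B ++ A, y ∈ ({x}ᶜ : Set V) := by
      intro y hy he
      rw [Set.mem_singleton_iff] at he
      subst he
      apply h5
      rw [List.mem_append] at hy ⊢
      exact hy.symm
    have hmemL : ∀ y, y ≠ x → (y ∈ L ↔ y ∈ B ++ A) := by
      intro y hy
      rw [hAB]
      simp only [List.mem_append, List.mem_cons]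
      tauto
    have hhx : h ∈ ({x}ᶜ : Set V) := fun he => hx (Set.mem_singleton_iff.1 he).symm
    refine h1 _ (G.induce {x}ᶜ) ⟨h, hhx⟩ (mw_sub {x}ᶜ (B ++ A) hM) (mw_girth _ hG)
      (mw_IP_sub _ _ hM hip) ?_ ?_
    · rw [mw_sub_mem]
      intro hc
      exact hS.hL ((hmemL h (fun he => hx he.symm)).2 hc)
    · intro y
      rcases hall y with hy | hy
      · left
        exact Subtype.ext hy
      · right
        rw [mw_sub_mem]
        exact (hmemL y y.2).1 hy

end Pool.Agent.Helper64.HG
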